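import Mathlib

/-!
# Gibbs averages are smooth in the inverse temperature, with bounds
-/

set_option autoImplicit false

open MeasureTheory

noncomputable section

namespace Pool.Agent.Helper58.TN

/-- The Gibbs average of `u` with energy `A` at `b`. -/
def gb {X : Type} [MeasurableSpace X] (μ : Measure X) (A : X → ℝ) (u : X → ℂ) (b : ℝ) : ℂ :=
  (∫ x, u x * (Real.exp (b * A x) : ℂ) ∂μ) / ((∫ x, Real.exp (b * A x) ∂μ : ℝ) : ℂ)

section

variable {X : Type} [TopologicalSpace X] [CompactSpace X] [SecondCountableTopology X]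
  [MeasurableSpace X] [BorelSpace X] (μ : Measure X) [IsProbabilityMeasure μ]
  {A : X → ℝ} {a : ℝ} {u : X → ℂ} {C : ℝ}

theorem int_exp (hA : Continuous A) (b : ℝ) : Integrable (fun x => Real.exp (b * A x)) μ := by
  have hc : Continuous fun x => Real.exp (b * A x) := by fun_prop
  obtain ⟨K, hK⟩ := (isCompact_range hc).isBounded.exists_norm_le
  exact Integrable.of_bound hc.aestronglyMeasurable K
    (Filter.Eventually.of_forall fun x => hK _ ⟨x, rfl⟩)

theorem int_num (hA : Continuous A) (hu : Continuous u) (b : ℝ) :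
    Integrable (fun x => u x * (Real.exp (b * A x) : ℂ)) μ := by
  have hc : Continuous fun x => u x * (Real.exp (b * A x) : ℂ) := by fun_prop
  obtain ⟨K, hK⟩ := (isCompact_range hc).isBounded.exists_norm_le
  exact Integrable.of_bound hc.aestronglyMeasurable K
    (Filter.Eventually.of_forall fun x => hK _ ⟨x, rfl⟩)

theorem z_pos (hA : Continuous A) (b : ℝ) : 0 < ∫ x, Real.exp (b * A x) ∂μ :=
  integral_exp_pos (int_exp μ hA b)

theorem num_hasDeriv (hA : Continuous A) (ha : ∀ x, |A x| ≤ a) (hu : Continuous u)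
    (hC : ∀ x, ‖u x‖ ≤ C) (b : ℝ) :
    HasDerivAt (fun b : ℝ => ∫ x, u x * (Real.exp (b * A x) : ℂ) ∂μ)
      (∫ x, (u x * (A x : ℂ)) * (Real.exp (b * A x) : ℂ) ∂μ) b := by
  have hX : Nonempty X := μ.nonempty_of_neZero
  obtain ⟨x0⟩ := hX
  have ha0 : 0 ≤ a := (abs_nonneg _).trans (ha x0)
  have hC0 : 0 ≤ C := (norm_nonneg _).trans (hC x0)
  have huA : Continuous fun x => u x * (A x : ℂ) := by fun_prop
  refine (hasDerivAt_integral_of_dominated_loc_of_deriv_le
    (F := fun (b : ℝ) x => u x * (Real.exp (b * A x) : ℂ))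
    (F' := fun (b : ℝ) x => (u x * (A x : ℂ)) * (Real.exp (b * A x) : ℂ))
    (bound := fun _ => C * a * Real.exp ((|b| + 1) * a))
    (Metric.ball_mem_nhds b one_pos) ?_ (int_num μ hA hu b) ?_ ?_ ?_ ?_).2
  · exact Filter.Eventually.of_forall fun c => (int_num μ hA hu c).aestronglyMeasurable
  · exact (int_num μ hA huA b).aestronglyMeasurable
  · refine Filter.Eventually.of_forall fun x c hc => ?_
    rw [Metric.mem_ball, Real.dist_eq] at hc
    rw [norm_mul, norm_mul, Complex.norm_real, Complex.norm_real, Real.norm_eq_abs,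
      Real.norm_eq_abs, Real.abs_exp]
    have h1 : c * A x ≤ (|b| + 1) * a := by
      have h2 : |c| ≤ |b| + 1 := by
        have := abs_sub_abs_le_abs_sub c b
        linarith
      calc c * A x ≤ |c * A x| := le_abs_self _
        _ = |c| * |A x| := abs_mul _ _
        _ ≤ (|b| + 1) * a := mul_le_mul h2 (ha x) (abs_nonneg _) (by positivity)
    refine mul_le_mul (mul_le_mul (hC x) (ha x) (abs_nonneg _) hC0)
      (Real.exp_le_exp.2 h1) (Real.exp_pos _).le (mul_nonneg hC0 ha0)
  · exact integrable_const _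
  · refine Filter.Eventually.of_forall fun x c _ => ?_
    have h1 : HasDerivAt (fun c : ℝ => Real.exp (c * A x)) (Real.exp (c * A x) * A x) c := by
      have := ((hasDerivAt_id c).mul_const (A x)).exp
      simpa using this
    have h2 := (h1.ofReal_comp).const_mul (u x)
    refine h2.congr_deriv ?_
    push_cast
    ring

theorem gb_eq (b : ℝ) :
    gb μ A u b = (∫ x, u x * (Real.exp (b * A x) : ℂ) ∂μ) /
      (∫ x, (1 : ℂ) * (Real.exp (b * A x) : ℂ) ∂μ) := by
  unfold gb
  congr 1
  simp only [one_mul]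
  exact (integral_ofReal (𝕜 := ℂ) (μ := μ) (f := fun x => Real.exp (b * A x))).symm

theorem den_ne (hA : Continuous A) (b : ℝ) :
    (∫ x, (1 : ℂ) * (Real.exp (b * A x) : ℂ) ∂μ) ≠ 0 := by
  have h : (∫ x, (1 : ℂ) * (Real.exp (b * A x) : ℂ) ∂μ) =
      ((∫ x, Real.exp (b * A x) ∂μ : ℝ) : ℂ) := by
    simp only [one_mul]
    exact integral_ofReal (𝕜 := ℂ) (μ := μ) (f := fun x => Real.exp (b * A x))
  rw [h]
  exact_mod_cast (z_pos μ hA b).ne'

theorem gb_hasDeriv (hA : Continuous A) (ha : ∀ x, |A x| ≤ a) (hu : Continuous u)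
    (hC : ∀ x, ‖u x‖ ≤ C) (b : ℝ) :
    HasDerivAt (gb μ A u)
      (gb μ A (fun x => u x * (A x : ℂ)) b - gb μ A u b * gb μ A (fun x => (A x : ℂ)) b) b := by
  have h1 := num_hasDeriv μ hA ha hu hC b
  have h2 := num_hasDeriv μ hA ha (u := fun _ => (1 : ℂ)) continuous_const (C := 1)
    (fun x => by simp) b
  have h3 := h1.div h2 (den_ne μ hA b)
  have h4 : gb μ A u = fun b => (∫ x, u x * (Real.exp (b * A x) : ℂ) ∂μ) /
      (∫ x, (1 : ℂ) * (Real.exp (b * A x) : ℂ) ∂μ) := by
    funext b
    exact gb_eq μ b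
  rw [gb_eq μ b, gb_eq μ b, gb_eq μ b, h4]
  refine h3.congr_deriv ?_
  have hne := den_ne μ hA b
  simp only [one_mul] at hne ⊢
  field_simp

theorem norm_gb_le (hA : Continuous A) (hC : ∀ x, ‖u x‖ ≤ C) (b : ℝ) : ‖gb μ A u b‖ ≤ C := by
  have hz := z_pos μ hA b
  unfold gb
  rw [norm_div, Complex.norm_real, Real.norm_eq_abs, abs_of_pos hz, div_le_iff₀ hz]
  calc ‖∫ x, u x * (Real.exp (b * A x) : ℂ) ∂μ‖ ≤ ∫ x, C * Real.exp (b * A x) ∂μ := by
        refine norm_integral_le_of_norm_le ((int_exp μ hA b).const_mul C)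
          (Filter.Eventually.of_forall fun x => ?_)
        rw [norm_mul, Complex.norm_real, Real.norm_eq_abs, Real.abs_exp]
        exact mul_le_mul_of_nonneg_right (hC x) (Real.exp_pos _).le
    _ = C * ∫ x, Real.exp (b * A x) ∂μ := integral_const_mul _ _

end

/-- The constants. -/
def cc : ℕ → ℝ
  | 0 => 1
  | (j + 1) => cc j + ∑ i : Fin (j + 1), (j.choose i : ℝ) * cc i * cc (j - i)
  termination_by j => j
  decreasing_by
    all_goals omega

theorem cc_nonneg (j : ℕ) : 0 ≤ cc j := by
  induction j using Nat.strong_induction_on with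
  | _ j ih =>
    cases j with
    | zero => rw [cc]; norm_num
    | succ j =>
      rw [cc]
      refine add_nonneg (ih j (Nat.lt_succ_self j)) (Finset.sum_nonneg fun i _ => ?_)
      exact mul_nonneg (mul_nonneg (Nat.cast_nonneg _) (ih _ i.2)) (ih _ (by omega))

theorem cc_succ (j : ℕ) : cc (j + 1) =
    cc j + ∑ i ∈ Finset.range (j + 1), (j.choose i : ℝ) * cc i * cc (j - i) := by
  rw [cc, Finset.sum_range (fun i => (j.choose i : ℝ) * cc i * cc (j - i))]

theorem gb_main {X : Type} [TopologicalSpace X] [CompactSpace X] [SecondCountableTopology X]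
    [MeasurableSpace X] [BorelSpace X] (μ : Measure X) [IsProbabilityMeasure μ]
    {A : X → ℝ} {a : ℝ} (hA : Continuous A) (ha : ∀ x, |A x| ≤ a) (j : ℕ) :
    ∀ (u : X → ℂ) (C : ℝ), Continuous u → (∀ x, ‖u x‖ ≤ C) →
      ContDiff ℝ j (gb μ A u) ∧ ∀ b, ‖iteratedDeriv j (gb μ A u) b‖ ≤ cc j * C * a ^ j := by
  have hX : Nonempty X := μ.nonempty_of_neZero
  obtain ⟨x0⟩ := hX
  have ha0 : 0 ≤ a := (abs_nonneg _).trans (ha x0)
  induction j using Nat.strong_induction_on with
  | _ j ih =>
    intro u C hu hC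
    have hC0 : 0 ≤ C := (norm_nonneg _).trans (hC x0)
    cases j with
    | zero =>
      have hdiff : Differentiable ℝ (gb μ A u) := fun b =>
        (gb_hasDeriv μ hA ha hu hC b).differentiableAt
      refine ⟨by rw [Nat.cast_zero]; exact contDiff_zero.2 hdiff.continuous, fun b => ?_⟩
      rw [iteratedDeriv_zero, cc, one_mul, pow_zero, mul_one]
      exact norm_gb_le μ hA hC b
    | succ j =>
      have huA : Continuous fun x => u x * (A x : ℂ) := by fun_prop
      have hAc : Continuous fun x => (A x : ℂ) := by fun_prop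
      have huAb : ∀ x, ‖u x * (A x : ℂ)‖ ≤ C * a := by
        intro x
        rw [norm_mul, Complex.norm_real, Real.norm_eq_abs]
        exact mul_le_mul (hC x) (ha x) (abs_nonneg _) hC0
      have hAb : ∀ x, ‖((A x : ℝ) : ℂ)‖ ≤ a := by
        intro x
        rw [Complex.norm_real, Real.norm_eq_abs]
        exact ha x
      have hder : deriv (gb μ A u) = (gb μ A (fun x => u x * (A x : ℂ))) -
          fun b => gb μ A u b * gb μ A (fun x => (A x : ℂ)) b := by
        funext b
        rw [(gb_hasDeriv μ hA ha hu hC b).deriv]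
        rfl
      have h1 := ih j (Nat.lt_succ_self j) _ _ huA huAb
      have h2 := ih j (Nat.lt_succ_self j) _ _ hu hC
      have h3 := ih j (Nat.lt_succ_self j) _ _ hAc hAb
      have hmul : ContDiff ℝ j fun b => gb μ A u b * gb μ A (fun x => (A x : ℂ)) b :=
        h2.1.mul h3.1
      refine ⟨?_, fun b => ?_⟩
      · push_cast
        rw [contDiff_succ_iff_deriv]
        refine ⟨fun b => (gb_hasDeriv μ hA ha hu hC b).differentiableAt, by simp, ?_⟩
        rw [hder]
        exact h1.1.sub hmul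
      · rw [iteratedDeriv_succ', hder, iteratedDeriv_sub h1.1.contDiffAt hmul.contDiffAt]
        refine (norm_sub_le _ _).trans ?_
        have h4 : ‖iteratedDeriv j (fun b => gb μ A u b * gb μ A (fun x => (A x : ℂ)) b) b‖ ≤
            ∑ i ∈ Finset.range (j + 1), (j.choose i : ℝ) * cc i * cc (j - i) *
              (C * a ^ (j + 1)) := by
          rw [← norm_iteratedFDeriv_eq_norm_iteratedDeriv]
          refine (norm_iteratedFDeriv_mul_le h2.1 h3.1 b le_rfl).trans ?_
          refine Finset.sum_le_sum fun i hi => ?_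
          have hi' : i ≤ j := Nat.lt_succ_iff.1 (Finset.mem_range.1 hi)
          rw [norm_iteratedFDeriv_eq_norm_iteratedDeriv, norm_iteratedFDeriv_eq_norm_iteratedDeriv]
          have h5 := (ih i (by omega) _ _ hu hC).2 b
          have h6 := (ih (j - i) (by omega) _ _ hAc hAb).2 b
          have h7 : a ^ (j + 1) = a ^ i * (a * a ^ (j - i)) := by
            rw [← pow_succ', ← pow_add]
            congr 1
            omega
          calc (j.choose i : ℝ) * ‖iteratedDeriv i (gb μ A u) b‖ *
                ‖iteratedDeriv (j - i) (gb μ A fun x => (A x : ℂ)) b‖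
              ≤ (j.choose i : ℝ) * (cc i * C * a ^ i) * (cc (j - i) * a * a ^ (j - i)) := by
                refine mul_le_mul (mul_le_mul_of_nonneg_left h5 (Nat.cast_nonneg _)) h6
                  (norm_nonneg _) ?_
                exact mul_nonneg (Nat.cast_nonneg _)
                  (mul_nonneg (mul_nonneg (cc_nonneg i) hC0) (pow_nonneg ha0 _))
            _ = (j.choose i : ℝ) * cc i * cc (j - i) * (C * a ^ (j + 1)) := by
                rw [h7]
                ring
        have h8 := h1.2 b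
        rw [← Finset.sum_mul] at h4
        calc _ ≤ cc j * (C * a) * a ^ j +
              (∑ i ∈ Finset.range (j + 1), (j.choose i : ℝ) * cc i * cc (j - i)) *
                (C * a ^ (j + 1)) := add_le_add h8 h4
          _ = cc (j + 1) * C * a ^ (j + 1) := by
              rw [cc_succ]
              ring

theorem gb_all (j : ℕ) : ∃ c : ℝ, 0 ≤ c ∧ ∀ (X : Type) [TopologicalSpace X] [CompactSpace X]
    [SecondCountableTopology X] [MeasurableSpace X] [BorelSpace X] (μ : Measure X)
    [IsProbabilityMeasure μ] (A : X → ℝ) (a : ℝ) (u : X → ℂ) (C : ℝ), Continuous A →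
    (∀ x, |A x| ≤ a) → Continuous u → (∀ x, ‖u x‖ ≤ C) →
    ContDiff ℝ j (gb μ A u) ∧ ∀ b, ‖iteratedDeriv j (gb μ A u) b‖ ≤ c * C * a ^ j :=
  ⟨cc j, cc_nonneg j, fun _ _ _ _ _ _ μ _ _ _ u C hA ha hu hC => gb_main μ hA ha j u C hu hC⟩

end Pool.Agent.Helper58.TN
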